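import Pool.Agent.Q77.BL.Poly

set_option autoImplicit false

/-!
# MP_a2ab48_an: two polynomials in one component of `ℋ_{5,2}` with inequivalent zero sets

For `n = 5`, `d = 2` the polynomials `p_t = x₀² + x₁² - (1 - t/2) (x₂² + x₃²) - t x₄²`, `0 ≤ t ≤ 1`,
are harmonic, and both of `Ω_p^±` are NTA domains, since there are at least two positive and at least
two negative squares. So `p_0` and `p_1` are in the same connected component of `ℋ_{5,2}`. The zero set
of `p_0` is the product of the cone over the Clifford torus in `ℝ⁴` and a line, and it is not a
topological manifold near this line, but `Σ_{p_1} \ {0}` is a manifold. There is no bi-Lipschitz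
bijection between the two zero sets.

Proof of the last claim. The line has codimension three in `Σ_{p_0}`, and so has its image in the
four-dimensional manifold `Σ_{p_1} \ {0}`. So in a chart the image of a small loop around the line can
be contracted along a cone with a generic vertex, avoiding the image of the line. But the loop is
not contractible in the complement of the line in `Σ_{p_0}`, since `x₀ + i x₁` has winding number
one along it.

Definitions: `Pool/Agent/Q77/BL/Def.lean` (`NiceBall`, `HarnackChain`, `IsNTA`) and
`Pool/Agent/Q77/BL/PolyDef.lean` (`coeffTopology`, `Harm`, `Pos`, `Neg`, `Zer`, `HH`, `BiLipEquiv`).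
-/

namespace Pool.Agent.Results.MP_a2ab48_an.ComponentNotBiLipschitz

open Q77.BL

/-- There are `p, q ∈ ℋ_{5,2}`, in the same connected component of `ℋ_{5,2}`, the zero sets of which are
not bi-Lipschitz equivalent. -/
theorem result : ∃ p q : MvPolynomial (Fin 5) ℝ, p ∈ HH 5 2 ∧ q ∈ HH 5 2 ∧
    q ∈ @connectedComponentIn _ (coeffTopology 5) (HH 5 2) p ∧ ¬ BiLipEquiv (Zer p) (Zer q) :=
  ⟨pq 0, pq 1, pq_mem le_rfl zero_le_one, pq_mem zero_le_one le_rfl, pq_connected, not_equiv⟩

end Pool.Agent.Results.MP_a2ab48_an.ComponentNotBiLipschitz
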